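import Pool.Agent.H78.BF.Mig
import Pool.Agent.H8.BullDefs

/-!
Seinsche's theorem and Step 5: in a gem-free bull-free graph without a prism with an
anticentre, every minimal imperfect graph with an anticentre is triangle-free.
-/

namespace BullPD

open Finset

variable {V : Type*} [DecidableEq V]

/-- `G[T]` is disconnected -/
def Split2 (G : SimpleGraph V) (T : Finset V) : Prop :=
  ∃ A B : Finset V, A ∪ B = T ∧ Disjoint A B ∧ A.Nonempty ∧ B.Nonempty ∧
    ∀ a ∈ A, ∀ b ∈ B, ¬ G.Adj a b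

/-- `G[T]` has no induced path on four vertices -/
def P4Free (G : SimpleGraph V) (T : Finset V) : Prop :=
  ∀ a ∈ T, ∀ b ∈ T, ∀ c ∈ T, ∀ d ∈ T, ¬ IsP4 G a b c d

theorem P4Free.compl {G : SimpleGraph V} {T : Finset V} (h : P4Free G T) : P4Free Gᶜ T := by
  intro a ha b hb c hc d hd hP
  obtain ⟨h1, h2, h3, h4, h5, h6⟩ := hP
  rw [SimpleGraph.compl_adj] at h1 h2 h3
  have h4' : a ≠ c → G.Adj a c := fun hne => by
    by_contra hcon
    exact h4 ((SimpleGraph.compl_adj _ _ _).2 ⟨hne, hcon⟩)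
  have h5' : b ≠ d → G.Adj b d := fun hne => by
    by_contra hcon
    exact h5 ((SimpleGraph.compl_adj _ _ _).2 ⟨hne, hcon⟩)
  have h6' : a ≠ d → G.Adj a d := fun hne => by
    by_contra hcon
    exact h6 ((SimpleGraph.compl_adj _ _ _).2 ⟨hne, hcon⟩)
  have hac : a ≠ c := by
    rintro rfl
    rcases eq_or_ne b d with rfl | hbd
    · exact h6 ((SimpleGraph.compl_adj _ _ _).2 h1)
    · exact h6 ((SimpleGraph.compl_adj _ _ _).2 h3)
  have hbd : b ≠ d := by
    rintro rfl
    exact h6 ((SimpleGraph.compl_adj _ _ _).2 h1)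
  have had : a ≠ d := by
    rintro rfl
    exact h5 ((SimpleGraph.compl_adj _ _ _).2 ⟨Ne.symm h1.1, fun h => h1.2 h.symm⟩)
  exact h b hb d hd a ha c hc ⟨h5' hbd, (h6' had).symm, h4' hac, fun h => h1.2 h.symm,
    fun h => h3.2 h.symm, h2.2⟩

theorem split2_insert {G : SimpleGraph V} {T : Finset V} {x : V} (hx : x ∉ T)
    (hP : P4Free G (insert x T)) (hT : Split2 G T) :
    Split2 G (insert x T) ∨ Split2 Gᶜ (insert x T) := by
  classical
  obtain ⟨A, B, rfl, hd, hA, hB, hAB⟩ := hT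
  have hxA : x ∉ A := fun h => hx (Finset.mem_union_left _ h)
  have hxB : x ∉ B := fun h => hx (Finset.mem_union_right _ h)
  -- a symmetric construction
  have key : ∀ A B : Finset V, Disjoint A B → x ∉ A → x ∉ B → P4Free G (insert x (A ∪ B)) →
      (∀ a ∈ A, ∀ b ∈ B, ¬ G.Adj a b) → (∃ a ∈ A, ¬ G.Adj x a) → (∃ b ∈ B, G.Adj x b) →
      Split2 G (insert x (A ∪ B)) := by
    intro A B hd hxA hxB hP hAB ⟨a0, ha0, hxa0⟩ ⟨b0, hb0, hxb0⟩
    set A2 := A.filter (fun a => ¬ G.Adj x a) with hA2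
    refine ⟨A2, (insert x (A ∪ B)) \ A2, ?_, Finset.disjoint_sdiff,
      ⟨a0, Finset.mem_filter.2 ⟨ha0, hxa0⟩⟩, ⟨x, ?_⟩, ?_⟩
    · apply Finset.union_sdiff_of_subset
      intro a ha
      exact Finset.mem_insert_of_mem (Finset.mem_union_left _ (Finset.mem_filter.1 ha).1)
    · rw [Finset.mem_sdiff]
      exact ⟨Finset.mem_insert_self _ _, fun h => hxA (Finset.mem_filter.1 h).1⟩
    · intro a ha b hb hab
      rw [Finset.mem_filter] at ha
      rw [Finset.mem_sdiff, Finset.mem_insert, Finset.mem_union] at hb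
      rcases hb.1 with rfl | hbA | hbB
      · exact ha.2 hab.symm
      · have hxb : G.Adj x b := by
          by_contra hcon
          exact hb.2 (Finset.mem_filter.2 ⟨hbA, hcon⟩)
        have mA : ∀ z ∈ A, z ∈ insert x (A ∪ B) := fun z hz =>
          Finset.mem_insert_of_mem (Finset.mem_union_left _ hz)
        exact hP a (mA a ha.1) b (mA b hbA) x (Finset.mem_insert_self _ _) b0
          (Finset.mem_insert_of_mem (Finset.mem_union_right _ hb0))
          ⟨hab, hxb.symm, hxb0, fun h => ha.2 h.symm, hAB b hbA b0 hb0, hAB a ha.1 b0 hb0⟩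
      · exact hAB a ha.1 b hbB hab
  by_cases h1 : ∃ a ∈ A, G.Adj x a
  · by_cases h2 : ∃ b ∈ B, G.Adj x b
    · by_cases h3 : ∃ a ∈ A, ¬ G.Adj x a
      · exact Or.inl (key A B hd hxA hxB hP hAB h3 h2)
      · by_cases h4 : ∃ b ∈ B, ¬ G.Adj x b
        · left
          have := key B A hd.symm hxB hxA (by rwa [Finset.union_comm])
            (fun b hb a ha h => hAB a ha b hb h.symm) h4 h1
          rwa [Finset.union_comm] at this
        · right
          push Not at h3 h4
          refine ⟨{x}, A ∪ B, by rw [← Finset.insert_eq], ?_, ⟨x, by simp⟩,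
            hA.mono Finset.subset_union_left, ?_⟩
          · rw [Finset.disjoint_singleton_left]; exact hx
          · intro a ha b hb hab
            rw [Finset.mem_singleton] at ha
            subst ha
            rw [SimpleGraph.compl_adj] at hab
            rcases Finset.mem_union.1 hb with hb | hb
            · exact hab.2 (h3 b hb)
            · exact hab.2 (h4 b hb)
    · left
      push Not at h2
      refine ⟨insert x A, B, by rw [Finset.insert_union], ?_, ⟨x, by simp⟩, hB, ?_⟩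
      · rw [Finset.disjoint_insert_left]; exact ⟨hxB, hd⟩
      · intro a ha b hb
        rcases Finset.mem_insert.1 ha with rfl | ha
        · exact h2 b hb
        · exact hAB a ha b hb
  · left
    push Not at h1
    refine ⟨A, insert x B, by rw [Finset.union_insert], ?_, hA, ⟨x, by simp⟩, ?_⟩
    · rw [Finset.disjoint_insert_right]; exact ⟨hxA, hd⟩
    · intro a ha b hb
      rcases Finset.mem_insert.1 hb with rfl | hb
      · exact fun h => h1 a ha h.symm
      · exact hAB a ha b hb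

/-- Seinsche: a `P4`-free graph with at least two vertices is disconnected or co-disconnected -/
theorem seinsche {G : SimpleGraph V} : ∀ T : Finset V, 2 ≤ T.card → P4Free G T →
    Split2 G T ∨ Split2 Gᶜ T := by
  intro T
  induction T using Finset.induction_on with
  | empty => intro h; simp at h
  | insert x T hx ih =>
    intro h2 hP
    rw [Finset.card_insert_of_notMem hx] at h2
    rcases Nat.lt_or_ge T.card 2 with h3 | h3
    · have hc1 : T.card = 1 := by omega
      obtain ⟨y, rfl⟩ := Finset.card_eq_one.1 hc1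
      rw [Finset.mem_singleton] at hx
      by_cases hxy : G.Adj x y
      · right
        refine ⟨{x}, {y}, by rw [← Finset.insert_eq], by simpa using hx, ⟨x, by simp⟩,
          ⟨y, by simp⟩, ?_⟩
        intro a ha b hb hab
        rw [Finset.mem_singleton] at ha hb
        subst ha; subst hb
        rw [SimpleGraph.compl_adj] at hab
        exact hab.2 hxy
      · left
        refine ⟨{x}, {y}, by rw [← Finset.insert_eq], by simpa using hx, ⟨x, by simp⟩,
          ⟨y, by simp⟩, ?_⟩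
        intro a ha b hb hab
        rw [Finset.mem_singleton] at ha hb
        subst ha; subst hb
        exact hxy hab
    · have hPT : P4Free G T := fun a ha b hb c hc d hd =>
        hP a (Finset.mem_insert_of_mem ha) b (Finset.mem_insert_of_mem hb) c
          (Finset.mem_insert_of_mem hc) d (Finset.mem_insert_of_mem hd)
      rcases ih h3 hPT with h4 | h4
      · exact split2_insert hx hP h4
      · have h5 := split2_insert hx hP.compl h4
        rw [compl_compl] at h5
        exact h5.symm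

/-- in a gem-free graph, every edge `x y` of a minimal imperfect graph which lies in a triangle
has a private neighbour at `x` -/
theorem MIG.exists_private {G : SimpleGraph V} (hg : GemFree G) {I : Finset V} (h : MIG G I)
    {x y z : V} (hx : x ∈ I) (hy : y ∈ I) (hz : z ∈ I) (hxy : G.Adj x y) (hxz : G.Adj x z)
    (hyz : G.Adj y z) : ∃ u ∈ I, G.Adj x u ∧ ¬ G.Adj u y ∧ ¬ G.Adj u z := by
  classical
  set T := I.filter (fun u => G.Adj x u) with hT
  have hyT : y ∈ T := Finset.mem_filter.2 ⟨hy, hxy⟩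
  have hzT : z ∈ T := Finset.mem_filter.2 ⟨hz, hxz⟩
  have hP : P4Free G T := by
    intro a ha b hb c hc d hd hP4
    exact hg x a b c d hP4 (Finset.mem_filter.1 ha).2 (Finset.mem_filter.1 hb).2
      (Finset.mem_filter.1 hc).2 (Finset.mem_filter.1 hd).2
  have h2 : 2 ≤ T.card := Finset.one_lt_card.2 ⟨y, hyT, z, hzT, hyz.ne⟩
  rcases seinsche T h2 hP with ⟨A, B, hAB, hd, hA, hB, hno⟩ | ⟨A, B, hAB, hd, hA, hB, hno⟩
  · -- `y, z` lie in the same part
    have main : ∀ A B : Finset V, A ∪ B = T → B.Nonempty → (∀ a ∈ A, ∀ b ∈ B, ¬ G.Adj a b) →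
        y ∈ A → ∃ u ∈ I, G.Adj x u ∧ ¬ G.Adj u y ∧ ¬ G.Adj u z := by
      intro A B hAB hB hno hyA
      have hzA : z ∈ A := by
        rw [← hAB] at hzT
        rcases Finset.mem_union.1 hzT with h | h
        · exact h
        · exact absurd hyz (hno y hyA z h)
      obtain ⟨u, hu⟩ := hB
      have huT : u ∈ T := by rw [← hAB]; exact Finset.mem_union_right _ hu
      exact ⟨u, (Finset.mem_filter.1 huT).1, (Finset.mem_filter.1 huT).2,
        fun h => hno y hyA u hu h.symm, fun h => hno z hzA u hu h.symm⟩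
    rw [← hAB] at hyT
    rcases Finset.mem_union.1 hyT with hyA | hyB
    · exact main A B hAB hB hno hyA
    · exact main B A (by rw [Finset.union_comm]; exact hAB) hA
        (fun b hb a ha hh => hno a ha b hb hh.symm) hyB
  · exfalso
    have hsub : ∀ u ∈ A ∪ B, u ∈ I ∧ G.Adj x u := by
      intro u hu
      rw [hAB] at hu
      exact Finset.mem_filter.1 hu
    refine h.lemS hx (J1 := A) (J2 := B)
      (fun u hu => (hsub u (Finset.mem_union_left _ hu)).1)
      (fun u hu => (hsub u (Finset.mem_union_right _ hu)).1) hA hB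
      (fun u hu => (hsub u (Finset.mem_union_left _ hu)).2)
      (fun u hu => (hsub u (Finset.mem_union_right _ hu)).2) ?_ ?_
    · intro u hu hxu
      have : u ∈ A ∪ B := by rw [hAB]; exact Finset.mem_filter.2 ⟨hu, hxu⟩
      exact Finset.mem_union.1 this
    · intro a ha b hb
      by_contra hcon
      refine hno a ha b hb ((SimpleGraph.compl_adj _ _ _).2 ⟨?_, hcon⟩)
      rintro rfl
      exact Finset.disjoint_left.1 hd ha hb

/-- `x1 x2 x3`, `y1 y2 y3` is a prism -/
def IsPrism (G : SimpleGraph V) (x1 x2 x3 y1 y2 y3 : V) : Prop :=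
  G.Adj x1 x2 ∧ G.Adj x1 x3 ∧ G.Adj x2 x3 ∧ G.Adj y1 y2 ∧ G.Adj y1 y3 ∧ G.Adj y2 y3 ∧
  G.Adj x1 y1 ∧ G.Adj x2 y2 ∧ G.Adj x3 y3 ∧
  ¬ G.Adj x1 y2 ∧ ¬ G.Adj x1 y3 ∧ ¬ G.Adj x2 y1 ∧ ¬ G.Adj x2 y3 ∧ ¬ G.Adj x3 y1 ∧ ¬ G.Adj x3 y2

/-- Step 5 -/
theorem MIG.triFree {G : SimpleGraph V} (hb : BullFree G) (hg : GemFree G)
    (hPR : ∀ x1 x2 x3 y1 y2 y3 a : V, IsPrism G x1 x2 x3 y1 y2 y3 → ¬ G.Adj a x1 →
      ¬ G.Adj a x2 → ¬ G.Adj a x3 → ¬ G.Adj a y1 → ¬ G.Adj a y2 → ¬ G.Adj a y3 → False)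
    {I : Finset V} (h : MIG G I) {v : V} (hv : ∀ x ∈ I, ¬ G.Adj v x) :
    ∀ x ∈ I, ∀ y ∈ I, ∀ z ∈ I, G.Adj x y → G.Adj y z → G.Adj x z → False := by
  intro x hx y hy z hz hxy hyz hxz
  obtain ⟨a, ha, hxa, hay, haz⟩ := h.exists_private hg hx hy hz hxy hxz hyz
  obtain ⟨b, hb', hyb, hbx, hbz⟩ := h.exists_private hg hy hx hz hxy.symm hyz hxz
  obtain ⟨c, hc, hzc, hcx, hcy⟩ := h.exists_private hg hz hx hy hxz.symm hyz.symm hxy
  have hab : G.Adj a b := hb x y z a b hxy hxz hyz hxa.symm hyb.symm hay haz hbx hbz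
  have hac : G.Adj a c := hb x z y a c hxz hxy hyz.symm hxa.symm hzc.symm haz hay hcx hcy
  have hbc : G.Adj b c := hb y z x b c hyz hxy.symm hxz.symm hyb.symm hzc.symm hbz hbx hcy hcx
  exact hPR x y z a b c v
    ⟨hxy, hxz, hyz, hab, hac, hbc, hxa, hyb, hzc, fun h => hbx h.symm, fun h => hcx h.symm,
      fun h => hay h.symm, fun h => hcy h.symm, fun h => haz h.symm, fun h => hbz h.symm⟩
    (hv x hx) (hv y hy) (hv z hz) (hv a ha) (hv b hb') (hv c hc)

theorem MIG.connOn {G : SimpleGraph V} {I : Finset V} (h : MIG G I) : ConnOn G (I : Set V) := by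
  classical
  intro H hH hne hcl
  by_contra hcon
  have hfin : (I.filter (fun x => x ∈ H) : Finset V) ⊆ I := Finset.filter_subset _ _
  have heq : ((I.filter (fun x => x ∈ H) : Finset V) : Set V) = H := by
    ext x
    rw [Finset.mem_coe, Finset.mem_filter]
    exact ⟨fun hx => hx.2, fun hx => ⟨by simpa using hH hx, hx⟩⟩
  obtain ⟨x, hx⟩ := hne
  obtain ⟨y, hy, z, hz, hzn, hyz⟩ := h.connected hfin
    ⟨x, Finset.mem_filter.2 ⟨by simpa using hH hx, hx⟩⟩
    (by intro h2; apply hcon; rw [← heq, h2])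
  exact hzn (Finset.mem_filter.2 ⟨hz, hcl y (Finset.mem_filter.1 hy).2 z (by simpa using hz) hyz⟩)

theorem MIG.not_bipOn {G : SimpleGraph V} {I : Finset V} (h : MIG G I) :
    ¬ BipOn G (I : Set V) := by
  classical
  rintro ⟨P, hP⟩
  obtain ⟨x, hx, y, hy, hxy, hc⟩ := h.not_bipartite (fun v => decide (P v))
  apply hP x (by simpa using hx) y (by simpa using hy) hxy
  simpa using hc

/-- Step 5, final form -/
theorem exists_good {G : SimpleGraph V} (hb : BullFree G) (hg : GemFree G)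
    (hPR : ∀ x1 x2 x3 y1 y2 y3 a : V, IsPrism G x1 x2 x3 y1 y2 y3 → ¬ G.Adj a x1 →
      ¬ G.Adj a x2 → ¬ G.Adj a x3 → ¬ G.Adj a y1 → ¬ G.Adj a y2 → ¬ G.Adj a y3 → False)
    (himp : ∀ v : V, ∃ I : Finset V, MIG G I ∧ v ∉ I ∧ ∀ x ∈ I, ¬ G.Adj v x)
    (hne : Nonempty V) :
    ∃ X : Finset V, ConnOn G (X : Set V) ∧ TriFreeOn G (X : Set V) ∧ ¬ BipOn G (X : Set V) := by
  obtain ⟨v⟩ := hne
  obtain ⟨I, hI, _, hv⟩ := himp v
  refine ⟨I, hI.connOn, ?_, hI.not_bipOn⟩
  intro x hx y hy z hz hxy hyz hxz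
  exact hI.triFree hb hg hPR hv x (by simpa using hx) y (by simpa using hy) z (by simpa using hz)
    hxy hyz hxz

end BullPD
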