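import Pool.Agent.H78.BF.Bridge

/-!
Reduction to a minimal counterexample living on a whole finite type.
-/

namespace BullPD

open Finset

/-- triangle-free finsets are 3-colourable -/
def ThreeCol {V : Type*} (G : SimpleGraph V) : Prop :=
  ∀ X : Finset V, (∀ x ∈ X, ∀ y ∈ X, ∀ z ∈ X, G.Adj x y → G.Adj y z → G.Adj x z → False) →
    ∃ c : V → Fin 3, ∀ x ∈ X, ∀ y ∈ X, G.Adj x y → c x ≠ c y

theorem BullFree.comap {V W : Type*} {G : SimpleGraph V} (h : BullFree G) (f : W → V) :
    BullFree (G.comap f) :=
  fun x y t u v => h (f x) (f y) (f t) (f u) (f v)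

theorem ThreeCol.comap {V W : Type*} [DecidableEq V] {G : SimpleGraph V} (h : ThreeCol G)
    (f : W → V) : ThreeCol (G.comap f) := by
  intro X hX
  obtain ⟨c, hc⟩ := h (X.image f) (by
    intro x hx y hy z hz
    obtain ⟨a, ha, rfl⟩ := Finset.mem_image.1 hx
    obtain ⟨b, hb, rfl⟩ := Finset.mem_image.1 hy
    obtain ⟨d, hd, rfl⟩ := Finset.mem_image.1 hz
    exact hX a ha b hb d hd)
  exact ⟨fun x => c (f x), fun x hx y hy hxy =>
    hc (f x) (Finset.mem_image_of_mem f hx) (f y) (Finset.mem_image_of_mem f hy) hxy⟩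

theorem omW_comap {V W : Type*} [DecidableEq V] [DecidableEq W] (G : SimpleGraph V) (f : W ↪ V)
    (w : V → ℕ) (S : Finset W) :
    omW (G.comap f) (fun x => w (f x)) S = omW G w (S.map f) := by
  apply le_antisymm
  · rw [omW_le_iff]
    intro K hK hc
    have h1 : G.IsClique ((K.map f : Finset V) : Set V) := by
      intro a ha b hb hab
      rw [Finset.mem_coe, Finset.mem_map] at ha hb
      obtain ⟨x, hx, rfl⟩ := ha
      obtain ⟨y, hy, rfl⟩ := hb
      exact hc hx hy (fun h => hab (by rw [h]))
    have h2 := le_omW (f := w) (Finset.map_subset_map.2 hK) h1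
    rwa [Finset.sum_map] at h2
  · rw [omW_le_iff]
    intro K hK hc
    obtain ⟨K', hK', rfl⟩ : ∃ K' ⊆ S, K'.map f = K := by
      refine ⟨S.filter (fun x => f x ∈ K), Finset.filter_subset _ _, ?_⟩
      ext v
      rw [Finset.mem_map]
      constructor
      · rintro ⟨x, hx, rfl⟩
        exact (Finset.mem_filter.1 hx).2
      · intro hv
        obtain ⟨x, hx, rfl⟩ := Finset.mem_map.1 (hK hv)
        exact ⟨x, Finset.mem_filter.2 ⟨hx, hv⟩, rfl⟩
    have h1 : (G.comap f).IsClique (K' : Set W) := by
      intro a ha b hb hab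
      exact hc (by simpa using ha) (by simpa using hb) (fun h => hab (f.injective h))
    have h2 := le_omW (f := fun x => w (f x)) hK' h1
    rwa [Finset.sum_map]

theorem WPerf.map {V W : Type*} [DecidableEq V] [DecidableEq W] {G : SimpleGraph V} {f : W ↪ V}
    {A : Finset W} (h : WPerf (G.comap f) A) : WPerf G (A.map f) := by
  classical
  intro w
  obtain ⟨c, hc1, hc2⟩ := h (fun x => w (f x))
  rw [omW_comap] at hc1
  refine ⟨fun v => if hv : ∃ x, f x = v then c hv.choose else ∅, ?_, ?_⟩
  · intro v hv
    obtain ⟨x, hx, rfl⟩ := Finset.mem_map.1 hv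
    have hex : ∃ y, f y = f x := ⟨x, rfl⟩
    have hch : hex.choose = x := f.injective hex.choose_spec
    simp only [hex, dif_pos, hch]
    exact hc1 x hx
  · intro v hv u hu hvu
    obtain ⟨x, hx, rfl⟩ := Finset.mem_map.1 hv
    obtain ⟨y, hy, rfl⟩ := Finset.mem_map.1 hu
    have hex : ∃ z, f z = f x := ⟨x, rfl⟩
    have hch : hex.choose = x := f.injective hex.choose_spec
    have hey : ∃ z, f z = f y := ⟨y, rfl⟩
    have hcy : hey.choose = y := f.injective hey.choose_spec
    simp only [hex, hey, dif_pos, hch, hcy]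
    exact hc2 x hx y hy hvu

theorem Dv.map {V W : Type*} [DecidableEq V] [DecidableEq W] {G : SimpleGraph V} {f : W ↪ V}
    {w : V → ℕ} {S : Finset W} (h : Dv (G.comap f) (fun x => w (f x)) S) :
    Dv G w (S.map f) := by
  obtain ⟨A, hA, hAp, hlt⟩ := h
  refine ⟨A.map f, Finset.map_subset_map.2 hA, hAp.map, ?_⟩
  rw [omW_comap, omW_comap] at hlt
  rwa [← Finset.map_sdiff]

/-- the induction: it is enough to divide a whole type all of whose proper nonempty finsets
can be divided for all positive weights -/
theorem core_of_step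
    (step : ∀ (V : Type) [Fintype V] [DecidableEq V] (G : SimpleGraph V), BullFree G →
      ThreeCol G →
      (∀ (S : Finset V) (w : V → ℕ), S.Nonempty → S ≠ univ → (∀ v, 0 < w v) → Dv G w S) →
      ∀ w : V → ℕ, (∀ v, 0 < w v) → Nonempty V → Dv G w univ)
    (V : Type) [Fintype V] [DecidableEq V] (G : SimpleGraph V) (hb : BullFree G)
    (h3 : ThreeCol G) (w : V → ℕ) (hw : ∀ v, 0 < w v) (hV : Nonempty V) : Dv G w univ := by
  have main : ∀ (n : ℕ) (V : Type) [Fintype V] [DecidableEq V] (G : SimpleGraph V),
      Fintype.card V = n → BullFree G → ThreeCol G → ∀ w : V → ℕ, (∀ v, 0 < w v) →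
      Nonempty V → Dv G w univ := by
    intro n
    induction n using Nat.strong_induction_on with
    | _ n ih =>
    intro V _ _ G hn hb h3 w hw hV
    refine step V G hb h3 ?_ w hw hV
    intro S w' hS hne hw'
    have hcard : Fintype.card S < n := by
      rw [Fintype.card_coe, ← hn]
      exact Finset.card_lt_univ_of_notMem
        (Classical.choose_spec (by
          by_contra hcon
          push Not at hcon
          exact hne (Finset.eq_univ_iff_forall.2 hcon) : ∃ x, x ∉ S))
    have hS' : Nonempty S := hS.to_subtype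
    have h1 := ih _ hcard S (G.comap (Function.Embedding.subtype (· ∈ S))) rfl
      (hb.comap _) (h3.comap _) (fun x => w' x) (fun x => hw' x) hS'
    have h2 := Dv.map (G := G) (f := Function.Embedding.subtype (· ∈ S)) (w := w')
      (S := (univ : Finset S)) h1
    have h4 : (univ : Finset S).map (Function.Embedding.subtype (· ∈ S)) = S := by
      ext x; simp
    rwa [h4] at h2
  exact main _ V G rfl hb h3 w hw hV

/-- the final statement from the step -/
theorem pollyanna_of_step
    (step : ∀ (V : Type) [Fintype V] [DecidableEq V] (G : SimpleGraph V), BullFree G →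
      ThreeCol G →
      (∀ (S : Finset V) (w : V → ℕ), S.Nonempty → S ≠ univ → (∀ v, 0 < w v) → Dv G w S) →
      ∀ w : V → ℕ, (∀ v, 0 < w v) → Nonempty V → Dv G w univ) :
    PerfectPollyanna bullFreeClass :=
  pollyanna_of_core (fun V _ _ G hb h3 hV =>
    core_of_step step V G hb h3 (fun _ => 1) (fun _ => Nat.one_pos) hV)

/-- Step 1: in a minimal counterexample the graph is prime -/
theorem prime_of_not_dv {V : Type*} [Fintype V] [DecidableEq V] {G : SimpleGraph V}
    (hIH : ∀ (S : Finset V) (w : V → ℕ), S.Nonempty → S ≠ univ → (∀ v, 0 < w v) → Dv G w S)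
    {w : V → ℕ} (hw : ∀ v, 0 < w v) (hnd : ¬ Dv G w univ) {M : Finset V} (h2 : 2 ≤ M.card)
    (hmod : ∀ v, v ∉ M → (∀ x ∈ M, G.Adj v x) ∨ (∀ x ∈ M, ¬ G.Adj v x)) : M = univ := by
  by_contra hne
  obtain ⟨h, hh⟩ : M.Nonempty := Finset.card_pos.1 (by omega)
  apply hnd
  apply Dv.of_module hh (Finset.subset_univ M)
  · intro x _ hx y hy
    rcases hmod x hx with h1 | h1
    · exact ⟨fun _ => h1 h hh, fun _ => h1 y hy⟩
    · exact ⟨fun h3 => absurd h3 (h1 y hy), fun h3 => absurd h3 (h1 h hh)⟩
  · exact hIH M w ⟨h, hh⟩ hne hw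
  · apply hIH
    · exact ⟨h, Finset.mem_insert_self _ _⟩
    · intro hcon
      obtain ⟨m', hm', hmm⟩ := Finset.exists_mem_ne (by omega : 1 < M.card) h
      have : m' ∈ insert h (univ \ M) := by rw [hcon]; exact Finset.mem_univ _
      rw [Finset.mem_insert, Finset.mem_sdiff] at this
      rcases this with h1 | h1
      · exact hmm h1
      · exact h1.2 hm'
    · intro v
      by_cases hv : v = h
      · simp only [hv, if_true]
        exact lt_of_lt_of_le (hw h) (single_le_omW hh)
      · simp only [hv, if_false]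
        exact hw v

/-- adding an isolated vertex to a perfect graph -/
theorem wperf_insert_isolated {V : Type*} [DecidableEq V] {G : SimpleGraph V} {A : Finset V}
    (h : WPerf G A) {v : V} (hv : ∀ x ∈ A, ¬ G.Adj v x) : WPerf G (insert v A) := by
  by_cases hvA : v ∈ A
  · rwa [Finset.insert_eq_of_mem hvA]
  · intro f
    obtain ⟨c, hc⟩ := h.exists_col_range f
      (omW_mono_set (G := G) f (Finset.subset_insert v A))
    have hle : f v ≤ omW G f (insert v A) := single_le_omW (Finset.mem_insert_self _ _)
    refine ⟨fun x => if x = v then range (f v) else c x, ?_, ?_⟩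
    · intro x hx
      by_cases hxv : x = v
      · simp only [hxv, if_true, Finset.card_range, true_and]
        exact Finset.range_subset_range.2 hle
      · simp only [hxv, if_false]
        rcases Finset.mem_insert.1 hx with h1 | h1
        · exact absurd h1 hxv
        · exact hc.1 x h1
    · intro x hx y hy hxy
      rcases Finset.mem_insert.1 hx with rfl | hx'
      · rcases Finset.mem_insert.1 hy with rfl | hy'
        · exact absurd rfl hxy.ne
        · exact absurd hxy (hv y hy')
      · rcases Finset.mem_insert.1 hy with rfl | hy'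
        · exact absurd hxy.symm (hv x hx')
        · have hxv : x ≠ v := fun h => hvA (h ▸ hx')
          have hyv : y ≠ v := fun h => hvA (h ▸ hy')
          simp only [hxv, hyv, if_false]
          exact hc.2 x hx' y hy' hxy

/-- Step 2: in a minimal counterexample the non-neighbourhood of every vertex contains a
minimal imperfect graph -/
theorem exists_mig_nonnbr {V : Type*} [Fintype V] [DecidableEq V] {G : SimpleGraph V}
    {w : V → ℕ} (hw : ∀ v, 0 < w v) (hnd : ¬ Dv G w univ) (v : V) :
    ∃ I : Finset V, MIG G I ∧ v ∉ I ∧ ∀ x ∈ I, ¬ G.Adj v x := by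
  classical
  set M : Finset V := univ.filter (fun x => x ≠ v ∧ ¬ G.Adj v x) with hM
  have hMn : ¬ WPerf G M := by
    intro hp
    apply hnd
    refine ⟨insert v M, Finset.subset_univ _, wperf_insert_isolated hp ?_, ?_⟩
    · intro x hx
      exact (Finset.mem_filter.1 hx).2.2
    · obtain ⟨K, hK, hKc, hKs⟩ := exists_omW G w (univ \ insert v M)
      have hKv : ∀ x ∈ K, G.Adj v x := by
        intro x hx
        have := Finset.mem_sdiff.1 (hK hx)
        by_contra hcon
        apply this.2
        rw [Finset.mem_insert]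
        by_cases hxv : x = v
        · exact Or.inl hxv
        · exact Or.inr (Finset.mem_filter.2 ⟨Finset.mem_univ _, hxv, hcon⟩)
      have hvK : v ∉ K := fun hh => (hKv v hh).ne rfl
      have hc2 : G.IsClique ((insert v K : Finset V) : Set V) := by
        rw [Finset.coe_insert, SimpleGraph.isClique_insert]
        exact ⟨hKc, fun b hb _ => hKv b hb⟩
      have h4 := le_omW (f := w) (Finset.subset_univ _) hc2
      rw [Finset.sum_insert hvK, hKs] at h4
      have := hw v
      omega
  obtain ⟨I, hI, hIm⟩ := exists_mig_of_not_wperf hMn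
  exact ⟨I, hIm, fun hv => (Finset.mem_filter.1 (hI hv)).2.1 rfl,
    fun x hx => (Finset.mem_filter.1 (hI hx)).2.2⟩

end BullPD
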