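import Pool.Agent.H78.BF.Mig
import Pool.Agent.H8.BullDefs

/-!
Bridge between the finset notions and the notions of the problem file.
-/

namespace BullPD

open Finset

/-- the bull: the triangle `0 1 2` with pendant edges `0 3` and `1 4` -/
def bull : SimpleGraph (Fin 5) :=
  SimpleGraph.fromEdgeSet {s(0, 1), s(0, 2), s(1, 2), s(0, 3), s(1, 4)}

/-- a class of finite graphs (on the vertex sets `Fin n`) closed under isomorphism and
induced subgraphs -/
structure HereditaryClass where
  mem : ∀ n : ℕ, SimpleGraph (Fin n) → Prop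
  closed : ∀ (m n : ℕ) (H : SimpleGraph (Fin m)) (G : SimpleGraph (Fin n)),
    Nonempty (H ↪g G) → mem n G → mem m H

/-- perfect: chromatic number and clique number agree for all induced subgraphs -/
def IsPerfect {W : Type*} (G : SimpleGraph W) : Prop :=
  ∀ S : Set W, (G.induce S).chromaticNumber = ((G.induce S).cliqueNum : ℕ∞)

/-- perfectly divisible: every nonempty induced subgraph splits into a perfect part and a part
of smaller clique number -/
def PerfectlyDivisible {W : Type*} (G : SimpleGraph W) : Prop :=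
  ∀ S : Set W, S.Nonempty → ∃ A B : Set W, A ∪ B = S ∧ Disjoint A B ∧
    IsPerfect (G.induce A) ∧ (G.induce B).cliqueNum < (G.induce S).cliqueNum

/-- the class `C` is perfect-Pollyanna -/
def PerfectPollyanna (C : HereditaryClass) : Prop :=
  ∀ D : HereditaryClass,
    (∀ (n : ℕ) (G : SimpleGraph (Fin n)), D.mem n G → G.CliqueFree 3 → G.Colorable 3) →
    ∀ (n : ℕ) (G : SimpleGraph (Fin n)), C.mem n G → D.mem n G → PerfectlyDivisible G

/-- the class of bull-free graphs -/
def bullFreeClass : HereditaryClass where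
  mem := fun _ G => ¬ Nonempty (bull ↪g G)
  closed := fun _ _ _ _ ⟨e⟩ h ⟨f⟩ => h ⟨f.trans e⟩

theorem omW_eq_cliqueNum {V W : Type*} [DecidableEq V] [Finite W] {G : SimpleGraph V}
    {H : SimpleGraph W} (φ : H ↪g G) {T : Finset V} (hT : ∀ v, v ∈ T ↔ ∃ w, φ w = v) :
    omW G (fun _ => 1) T = H.cliqueNum := by
  classical
  haveI := Fintype.ofFinite W
  apply le_antisymm
  · rw [omW_le_iff]
    intro K hK hc
    have h1 : H.IsClique ((univ.filter (fun w => φ w ∈ K) : Finset W) : Set W) := by
      intro a ha b hb hab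
      rw [Finset.mem_coe, Finset.mem_filter] at ha hb
      exact φ.map_rel_iff.1 (hc ha.2 hb.2 (fun h => hab (φ.injective h)))
    have h2 := h1.card_le_cliqueNum
    have h3 : (univ.filter (fun w => φ w ∈ K)).map φ.toEmbedding = K := by
      ext v
      rw [Finset.mem_map]
      constructor
      · rintro ⟨w, hw, rfl⟩
        exact (Finset.mem_filter.1 hw).2
      · intro hv
        obtain ⟨w, rfl⟩ := (hT v).1 (hK hv)
        exact ⟨w, Finset.mem_filter.2 ⟨Finset.mem_univ _, hv⟩, rfl⟩
    have h4 : K.card = (univ.filter (fun w => φ w ∈ K)).card := by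
      rw [← h3, Finset.card_map]
      simp
    simpa [h4] using h2
  · obtain ⟨s, hs⟩ := H.exists_isNClique_cliqueNum
    have h1 : G.IsClique ((s.map φ.toEmbedding : Finset V) : Set V) := by
      intro a ha b hb hab
      rw [Finset.mem_coe, Finset.mem_map] at ha hb
      obtain ⟨x, hx, rfl⟩ := ha
      obtain ⟨y, hy, rfl⟩ := hb
      exact φ.map_rel_iff.2 (hs.isClique hx hy (fun h => hab (by rw [h])))
    have h2 := le_omW (f := fun _ => 1) (S := T) (K := s.map φ.toEmbedding) (by
      intro v hv
      rw [Finset.mem_map] at hv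
      obtain ⟨x, _, rfl⟩ := hv
      exact (hT _).2 ⟨x, rfl⟩) h1
    rw [← hs.card_eq]
    simpa using h2

theorem chromaticNumber_eq_of_perfOn {V W : Type*} [DecidableEq V] [Finite W]
    {G : SimpleGraph V} {H : SimpleGraph W} (φ : H ↪g G) {A : Finset V} (hA : PerfOn G A)
    (hφ : ∀ w, φ w ∈ A) : H.chromaticNumber = (H.cliqueNum : ℕ∞) := by
  classical
  haveI := Fintype.ofFinite W
  apply le_antisymm _ H.cliqueNum_le_chromaticNumber
  rw [SimpleGraph.chromaticNumber_le_iff_colorable]
  have hT : ∀ v, v ∈ (univ : Finset W).image φ ↔ ∃ w, φ w = v := by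
    intro v; simp
  obtain ⟨c, hc1, hc2⟩ := hA ((univ : Finset W).image φ) (by
    intro v hv
    obtain ⟨w, rfl⟩ := (hT v).1 hv
    exact hφ w)
  rw [omW_eq_cliqueNum φ hT] at hc1
  refine ⟨SimpleGraph.Coloring.mk (fun w => (⟨c (φ w), hc1 _ ((hT _).2 ⟨w, rfl⟩)⟩ : Fin _)) ?_⟩
  intro a b hab h
  exact hc2 _ ((hT _).2 ⟨a, rfl⟩) _ ((hT _).2 ⟨b, rfl⟩) (φ.map_rel_iff.2 hab)
    (congrArg Fin.val h)

theorem isPerfect_of_perfOn {V W : Type*} [DecidableEq V] [Finite W]
    {G : SimpleGraph V} {H : SimpleGraph W} (φ : H ↪g G) {A : Finset V} (hA : PerfOn G A)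
    (hφ : ∀ w, φ w ∈ A) : IsPerfect H := by
  intro S
  haveI : Finite S := Subtype.finite
  exact chromaticNumber_eq_of_perfOn
    ((SimpleGraph.Embedding.comap (Function.Embedding.subtype (· ∈ S)) H).trans φ) hA
    (fun w => hφ _)

theorem bullFree_of_no_bull {V : Type*} {G : SimpleGraph V} (h : ¬ Nonempty (bull ↪g G)) :
    BullFree G := by
  intro x y t u v hxy hxt hyt hux hvy huy hut hvx hvt
  by_contra huv
  apply h
  have hxy' := hxy.ne
  have hxt' := hxt.ne
  have hyt' := hyt.ne
  have hux' := hux.ne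
  have hvy' := hvy.ne
  have h1 : u ≠ y := by rintro rfl; exact hut hyt
  have h2 : u ≠ t := by rintro rfl; exact huy hyt.symm
  have h3 : v ≠ x := by rintro rfl; exact hvt hxt
  have h4 : v ≠ t := by rintro rfl; exact hvx hxt.symm
  have h5 : u ≠ v := by rintro rfl; exact huy hvy
  let f : Fin 5 → V := ![x, y, t, u, v]
  have hinj : Function.Injective f := by
    intro a b hab
    fin_cases a <;> fin_cases b <;> simp_all [f, eq_comm]
  refine ⟨⟨⟨f, hinj⟩, ?_⟩⟩
  intro a b
  have hs : ∀ p q : V, G.Adj p q ↔ G.Adj q p := fun p q => G.adj_comm p q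
  fin_cases a <;> fin_cases b <;>
    simp_all [f, bull, SimpleGraph.fromEdgeSet_adj, G.adj_comm]

/-- the final statement from the core theorem on whole types -/
theorem pollyanna_of_core
    (core : ∀ (V : Type) [Fintype V] [DecidableEq V] (G : SimpleGraph V), BullFree G →
      (∀ X : Finset V, (∀ x ∈ X, ∀ y ∈ X, ∀ z ∈ X, G.Adj x y → G.Adj y z → G.Adj x z → False) →
        ∃ c : V → Fin 3, ∀ x ∈ X, ∀ y ∈ X, G.Adj x y → c x ≠ c y) →
      Nonempty V → Dv G (fun _ => 1) univ) :
    PerfectPollyanna bullFreeClass := by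
  classical
  intro D hD n G hG hGD S hS
  haveI : Nonempty S := hS.to_subtype
  have e0 : G.induce S ↪g G :=
    SimpleGraph.Embedding.comap (Function.Embedding.subtype (· ∈ S)) G
  have hb : BullFree (G.induce S) := by
    apply bullFree_of_no_bull
    rintro ⟨e⟩
    exact hG ⟨e.trans e0⟩
  obtain ⟨A, -, hA, hlt⟩ := core S (G.induce S) hb (by
    intro X hX
    -- the graph on `X` lies in `D`
    let m := Fintype.card X
    let eX : Fin m ≃ X := (Fintype.equivFin X).symm
    let j : Fin m ↪ S := eX.toEmbedding.trans (Function.Embedding.subtype _)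
    let H : SimpleGraph (Fin m) := (G.induce S).comap j
    have eH : H ↪g G.induce S := SimpleGraph.Embedding.comap j (G.induce S)
    have hH : D.mem m H := D.closed m n H G ⟨eH.trans e0⟩ hGD
    have hfree : H.CliqueFree 3 := by
      intro s hs
      rw [SimpleGraph.is3Clique_iff] at hs
      obtain ⟨a, b, c, hab, hac, hbc, _⟩ := hs
      exact hX (j a) (eX a).2 (j b) (eX b).2 (j c) (eX c).2 hab hbc hac
    obtain ⟨col⟩ := hD m H hH hfree
    refine ⟨fun x => if hx : x ∈ X then col (eX.symm ⟨x, hx⟩) else 0, ?_⟩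
    intro x hx y hy hxy
    simp only [hx, hy, dif_pos]
    apply col.valid
    show (G.induce S).Adj (eX (eX.symm ⟨x, hx⟩)).1 (eX (eX.symm ⟨y, hy⟩)).1
    rw [Equiv.apply_symm_apply, Equiv.apply_symm_apply]
    exact hxy) inferInstance
  refine ⟨Subtype.val '' (A : Set S), Subtype.val '' ((univ \ A : Finset S) : Set S), ?_, ?_,
    ?_, ?_⟩
  · rw [← Set.image_union, ← Finset.coe_union]
    rw [Finset.union_sdiff_of_subset (Finset.subset_univ A)]
    simp
  · rw [Set.disjoint_image_iff Subtype.val_injective, Finset.disjoint_coe]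
    exact Finset.disjoint_sdiff
  · have key : ∀ w : (Subtype.val '' (A : Set S) : Set (Fin n)), ∃ s ∈ A, (s : Fin n) = w.1 := by
      rintro ⟨w, s, hs, rfl⟩
      exact ⟨s, hs, rfl⟩
    have hval : ∀ w : (Subtype.val '' (A : Set S) : Set (Fin n)), w.1 ∈ S := by
      rintro ⟨w, s, hs, rfl⟩
      exact s.2
    let ψ : (G.induce (Subtype.val '' (A : Set S) : Set (Fin n))) ↪g G.induce S :=
      { toFun := fun w => ⟨w.1, hval w⟩
        inj' := by
          intro a b hab
          exact Subtype.ext (congrArg (fun z : S => z.1) hab)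
        map_rel_iff' := by
          intro a b
          exact Iff.rfl }
    refine isPerfect_of_perfOn ψ hA.perfOn ?_
    intro w
    obtain ⟨s, hs, hsw⟩ := key w
    have : ψ w = s := Subtype.ext hsw.symm
    rw [this]; exact hs
  · have hval : ∀ w : (Subtype.val '' ((univ \ A : Finset S) : Set S) : Set (Fin n)),
        w.1 ∈ S := by
      rintro ⟨w, s, hs, rfl⟩
      exact s.2
    let ψ : (G.induce (Subtype.val '' ((univ \ A : Finset S) : Set S) : Set (Fin n)))
        ↪g G.induce S :=
      { toFun := fun w => ⟨w.1, hval w⟩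
        inj' := by
          intro a b hab
          exact Subtype.ext (congrArg (fun z : S => z.1) hab)
        map_rel_iff' := by
          intro a b
          exact Iff.rfl }
    have h1 : omW (G.induce S) (fun _ => 1) (univ \ A)
        = (G.induce (Subtype.val '' ((univ \ A : Finset S) : Set S) : Set (Fin n))).cliqueNum := by
      apply omW_eq_cliqueNum ψ
      intro s
      constructor
      · intro hs
        exact ⟨⟨s.1, s, hs, rfl⟩, rfl⟩
      · rintro ⟨⟨w, s', hs', rfl⟩, rfl⟩
        exact hs'
    have h2 : omW (G.induce S) (fun _ => 1) univ = (G.induce S).cliqueNum := by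
      apply omW_eq_cliqueNum (SimpleGraph.Embedding.refl)
      intro s
      simp
    rw [← h1, ← h2]
    exact hlt

end BullPD
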