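import Pool.Agent.H8.BullPerf1

/-!
Lovasz' perfect graph theorem for finsets, from weighted perfection.
-/

namespace BullPD

open Finset

variable {V : Type*} [DecidableEq V]

theorem clique_compl_iff {G : SimpleGraph V} {K : Finset V} :
    Gᶜ.IsClique (K : Set V) ↔ ∀ x ∈ K, ∀ y ∈ K, ¬ G.Adj x y := by
  constructor
  · intro h x hx y hy hxy
    have := h (by simpa using hx) (by simpa using hy) hxy.ne
    rw [SimpleGraph.compl_adj] at this
    exact this.2 hxy
  · intro h x hx y hy hxy
    rw [SimpleGraph.compl_adj]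
    exact ⟨hxy, h x (by simpa using hx) y (by simpa using hy)⟩

theorem clique_inter_stable_card {G : SimpleGraph V} {K S : Finset V}
    (hK : G.IsClique (K : Set V)) (hS : Gᶜ.IsClique (S : Set V)) : (K ∩ S).card ≤ 1 := by
  rw [Finset.card_le_one]
  intro a ha b hb
  rw [Finset.mem_inter] at ha hb
  by_contra hab
  have h1 := hK (by simpa using ha.1) (by simpa using hb.1) hab
  exact clique_compl_iff.1 hS a ha.2 b hb.2 h1

/-- a weighted perfect nonempty finset has a clique meeting all maximum stable sets -/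
theorem WPerf.exists_clique {G : SimpleGraph V} {T : Finset V} (h : WPerf G T)
    (hT : T.Nonempty) : ∃ K : Finset V, K ⊆ T ∧ G.IsClique (K : Set V) ∧
      ∀ S : Finset V, S ⊆ T → Gᶜ.IsClique (S : Set V) → S.card = omW Gᶜ (fun _ => 1) T →
        (K ∩ S).Nonempty := by
  classical
  by_contra hcon
  push Not at hcon
  have hex : ∀ K : Finset V, ∃ S : Finset V, K ∈ cliquesIn G T →
      S ⊆ T ∧ Gᶜ.IsClique (S : Set V) ∧ S.card = omW Gᶜ (fun _ => 1) T ∧ K ∩ S = ∅ := by
    intro K
    by_cases hK : K ∈ cliquesIn G T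
    · obtain ⟨h1, h2⟩ := mem_cliquesIn.1 hK
      obtain ⟨S, hS⟩ := hcon K h1 h2
      exact ⟨S, fun _ => ⟨hS.1, hS.2.1, hS.2.2.1, by simpa using hS.2.2.2⟩⟩
    · exact ⟨∅, fun hh => absurd hh hK⟩
  choose F hF using hex
  set al := omW Gᶜ (fun _ => 1) T with hal
  set Q := cliquesIn G T with hQ
  set w : V → ℕ := fun x => (Q.filter (fun K => x ∈ F K)).card with hw
  have hQne : ∅ ∈ Q := empty_mem_cliquesIn G T
  have hQpos : 0 < Q.card := Finset.card_pos.2 ⟨_, hQne⟩
  have halpos : 0 < al := by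
    obtain ⟨x, hx⟩ := hT
    have := single_le_omW (G := Gᶜ) (f := fun _ => 1) hx
    omega
  -- sums of w
  have hsum : ∀ B : Finset V, ∑ x ∈ B, w x = ∑ K ∈ Q, (B ∩ F K).card := by
    intro B
    have h1 : ∀ x ∈ B, w x = ∑ K ∈ Q, if x ∈ F K then 1 else 0 := by
      intro x _
      exact Finset.card_filter _ _
    rw [Finset.sum_congr rfl h1, Finset.sum_comm]
    refine Finset.sum_congr rfl ?_
    intro K _
    rw [← Finset.sum_filter, Finset.filter_mem_eq_inter]
    simp
  have hom : omW G w T ≤ Q.card - 1 := by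
    rw [omW_le_iff]
    intro K0 hK0 hc0
    have hK0Q : K0 ∈ Q := mem_cliquesIn.2 ⟨hK0, hc0⟩
    rw [hsum, ← Finset.add_sum_erase _ _ hK0Q]
    have h0 : (K0 ∩ F K0).card = 0 := by
      rw [(hF K0 hK0Q).2.2.2]; rfl
    rw [h0, Nat.zero_add]
    calc ∑ K ∈ Q.erase K0, (K0 ∩ F K).card ≤ ∑ K ∈ Q.erase K0, 1 := by
          refine Finset.sum_le_sum ?_
          intro K hK
          exact clique_inter_stable_card hc0 (hF K (Finset.mem_of_mem_erase hK)).2.1
      _ = Q.card - 1 := by
          rw [Finset.sum_const, smul_eq_mul, mul_one, Finset.card_erase_of_mem hK0Q]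
  obtain ⟨c, hc⟩ := h w
  -- double count
  have hT1 : ∑ x ∈ T, w x = Q.card * al := by
    rw [hsum]
    have : ∀ K ∈ Q, (T ∩ F K).card = al := by
      intro K hK
      obtain ⟨h1, _, h3, _⟩ := hF K hK
      rw [Finset.inter_eq_right.2 h1, h3]
    rw [Finset.sum_congr rfl this, Finset.sum_const, smul_eq_mul]
  have hT2 : ∑ x ∈ T, w x ≤ omW G w T * al := by
    have h1 : ∀ x ∈ T, w x = ∑ n ∈ range (omW G w T), if n ∈ c x then 1 else 0 := by
      intro x hx
      obtain ⟨h2, h3⟩ := hc.1 x hx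
      rw [← h2, ← Finset.sum_filter, Finset.filter_mem_eq_inter, Finset.inter_eq_right.2 h3]
      simp
    rw [Finset.sum_congr rfl h1, Finset.sum_comm]
    calc ∑ n ∈ range (omW G w T), ∑ x ∈ T, (if n ∈ c x then 1 else 0)
        ≤ ∑ n ∈ range (omW G w T), al := by
          refine Finset.sum_le_sum ?_
          intro n _
          rw [← Finset.sum_filter]
          refine le_omW (G := Gᶜ) (f := fun _ => 1) (Finset.filter_subset _ _) ?_
          rw [clique_compl_iff]
          intro x hx y hy hxy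
          rw [Finset.mem_filter] at hx hy
          exact Finset.disjoint_left.1 (hc.2 x hx.1 y hy.1 hxy) hx.2 hy.2
      _ = omW G w T * al := by
          rw [Finset.sum_const, smul_eq_mul, Finset.card_range]
  have h5 : Q.card * al ≤ (Q.card - 1) * al :=
    hT1 ▸ hT2.trans (Nat.mul_le_mul_right _ hom)
  have h6 := Nat.le_of_mul_le_mul_right h5 halpos
  omega

/-- one half of the perfect graph theorem -/
theorem WPerf.compl_perfOn {G : SimpleGraph V} {A : Finset V} (h : WPerf G A) :
    PerfOn Gᶜ A := by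
  classical
  intro T
  induction T using Finset.strongInduction with
  | H T ih =>
    intro hTA
    rcases T.eq_empty_or_nonempty with rfl | hT
    · exact ⟨fun _ => 0, by simp, by simp⟩
    obtain ⟨K, hKT, hK, hmeet⟩ := (h.mono hTA).exists_clique hT
    have hlt : omW Gᶜ (fun _ => 1) (T \ K) < omW Gᶜ (fun _ => 1) T := by
      obtain ⟨S, hS1, hS2, hS3⟩ := exists_omW Gᶜ (fun _ => 1) (T \ K)
      by_contra hcon
      have heq : omW Gᶜ (fun _ => 1) (T \ K) = omW Gᶜ (fun _ => 1) T :=
        le_antisymm (omW_mono_set _ Finset.sdiff_subset) (not_lt.1 hcon)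
      have hcard : S.card = omW Gᶜ (fun _ => 1) T := by
        rw [← heq, ← hS3]; simp
      obtain ⟨x, hx⟩ := hmeet S (hS1.trans Finset.sdiff_subset) hS2 hcard
      rw [Finset.mem_inter] at hx
      exact (Finset.mem_sdiff.1 (hS1 hx.2)).2 hx.1
    have hKne : K.Nonempty := by
      obtain ⟨S, hS1, hS2, hS3⟩ := exists_omW Gᶜ (fun _ => 1) T
      have hcard : S.card = omW Gᶜ (fun _ => 1) T := by
        rw [← hS3]; simp
      obtain ⟨x, hx⟩ := hmeet S hS1 hS2 hcard
      exact ⟨x, (Finset.mem_inter.1 hx).1⟩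
    have hss : T \ K ⊂ T := by
      refine Finset.sdiff_ssubset hKT hKne
    obtain ⟨c, hc1, hc2⟩ := ih (T \ K) hss (Finset.sdiff_subset.trans hTA)
    refine ⟨fun x => if x ∈ K then omW Gᶜ (fun _ => 1) T - 1 else c x, ?_, ?_⟩
    · intro x hx
      by_cases hxK : x ∈ K
      · simp only [hxK, if_true]; omega
      · simp only [hxK, if_false]
        exact (hc1 x (Finset.mem_sdiff.2 ⟨hx, hxK⟩)).trans hlt
    · intro x hx y hy hxy
      by_cases hxK : x ∈ K <;> by_cases hyK : y ∈ K
      · exfalso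
        rw [SimpleGraph.compl_adj] at hxy
        exact hxy.2 (hK (by simpa using hxK) (by simpa using hyK) hxy.1)
      · have := hc1 y (Finset.mem_sdiff.2 ⟨hy, hyK⟩)
        simp only [hxK, hyK, if_true, if_false]; omega
      · have := hc1 x (Finset.mem_sdiff.2 ⟨hx, hxK⟩)
        simp only [hxK, hyK, if_true, if_false]; omega
      · simp only [hxK, hyK, if_false]
        exact hc2 x (Finset.mem_sdiff.2 ⟨hx, hxK⟩) y (Finset.mem_sdiff.2 ⟨hy, hyK⟩) hxy

end BullPD
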