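import Pool.Agent.H8.BullPerf3
import Pool.Agent.H78.BF.PGT

/-!
The perfect graph theorem and minimal imperfect finsets.
-/

namespace BullPD

open Finset

variable {V : Type*} [DecidableEq V]

theorem PerfOn.mono {G : SimpleGraph V} {A B : Finset V} (h : PerfOn G A) (hBA : B ⊆ A) :
    PerfOn G B := fun T hT => h T (hT.trans hBA)

theorem PerfOn.compl {G : SimpleGraph V} {A : Finset V} (h : PerfOn G A) : PerfOn Gᶜ A :=
  h.wperf.compl_perfOn

/-- the perfect graph theorem -/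
theorem perfOn_compl_iff {G : SimpleGraph V} {A : Finset V} : PerfOn Gᶜ A ↔ PerfOn G A := by
  constructor
  · intro h
    have := h.compl
    rwa [compl_compl] at this
  · exact fun h => h.compl

/-- minimal imperfect finset -/
def MIG (G : SimpleGraph V) (I : Finset V) : Prop :=
  ¬ PerfOn G I ∧ ∀ J, J ⊂ I → PerfOn G J

theorem exists_mig {G : SimpleGraph V} {S : Finset V} (h : ¬ PerfOn G S) :
    ∃ I ⊆ S, MIG G I := by
  induction S using Finset.strongInduction with
  | H S ih =>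
    by_cases h2 : ∀ J, J ⊂ S → PerfOn G J
    · exact ⟨S, Finset.Subset.refl S, h, h2⟩
    · push Not at h2
      obtain ⟨J, hJ, hJn⟩ := h2
      obtain ⟨I, hI, hM⟩ := ih J hJ hJn
      exact ⟨I, hI.trans hJ.1, hM⟩

theorem exists_mig_of_not_wperf {G : SimpleGraph V} {S : Finset V} (h : ¬ WPerf G S) :
    ∃ I ⊆ S, MIG G I := exists_mig (fun h2 => h h2.wperf)

theorem MIG.compl {G : SimpleGraph V} {I : Finset V} (h : MIG G I) : MIG Gᶜ I :=
  ⟨fun h2 => h.1 (perfOn_compl_iff.1 h2), fun J hJ => (h.2 J hJ).compl⟩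

theorem perfOn_of_col {G : SimpleGraph V} {I : Finset V} (h : ∀ J, J ⊂ I → PerfOn G J)
    (c : V → ℕ) (hc : ∀ x ∈ I, c x < omW G (fun _ => 1) I)
    (hp : ∀ x ∈ I, ∀ y ∈ I, G.Adj x y → c x ≠ c y) : PerfOn G I := by
  intro T hT
  rcases hT.eq_or_ssubset with rfl | hss
  · exact ⟨c, hc, hp⟩
  · exact h T hss T (Finset.Subset.refl T)

theorem MIG.nonempty {G : SimpleGraph V} {I : Finset V} (h : MIG G I) : I.Nonempty := by
  rw [Finset.nonempty_iff_ne_empty]
  rintro rfl
  apply h.1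
  apply perfOn_of_col (fun J hJ => h.2 J hJ) (fun _ => 0) <;> simp

/-- in a minimal imperfect graph every vertex has degree at least the clique number -/
theorem MIG.omega_le_degree {G : SimpleGraph V} {I : Finset V} (h : MIG G I) {x : V}
    (hx : x ∈ I) [DecidablePred (G.Adj x)] :
    omW G (fun _ => 1) I ≤ (I.filter (G.Adj x)).card := by
  by_contra hcon
  push Not at hcon
  obtain ⟨c, hc1, hc2⟩ := h.2 (I.erase x) (Finset.erase_ssubset hx) (I.erase x)
    (Finset.Subset.refl _)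
  have hle : omW G (fun _ => 1) (I.erase x) ≤ omW G (fun _ => 1) I :=
    omW_mono_set _ (Finset.erase_subset _ _)
  have hcard : ((I.filter (G.Adj x)).image c).card < (range (omW G (fun _ => 1) I)).card := by
    rw [Finset.card_range]
    exact lt_of_le_of_lt Finset.card_image_le hcon
  obtain ⟨n, hn1, hn2⟩ := Finset.exists_mem_notMem_of_card_lt_card hcard
  apply h.1
  apply perfOn_of_col h.2 (fun y => if y = x then n else c y)
  · intro y hy
    by_cases hyx : y = x
    · simpa [hyx] using hn1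
    · simp only [hyx, if_false]
      exact (hc1 y (Finset.mem_erase.2 ⟨hyx, hy⟩)).trans_le hle
  · have key : ∀ y ∈ I, G.Adj x y → n ≠ c y := by
      rintro y hy hxy rfl
      exact hn2 (Finset.mem_image.2 ⟨y, Finset.mem_filter.2 ⟨hy, hxy⟩, rfl⟩)
    intro y hy z hz hyz
    by_cases hyx : y = x
    · have hzx : z ≠ x := by rintro rfl; subst hyx; exact hyz.ne rfl
      simp only [hyx, hzx, if_true, if_false]
      subst hyx
      exact key z hz hyz
    · by_cases hzx : z = x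
      · simp only [hyx, hzx, if_true, if_false]
        subst hzx
        exact (key y hy hyz.symm).symm
      · simp only [hyx, hzx, if_false]
        exact hc2 y (Finset.mem_erase.2 ⟨hyx, hy⟩) z (Finset.mem_erase.2 ⟨hzx, hz⟩) hyz

/-- a stable set is perfect -/
theorem perfOn_of_stable {G : SimpleGraph V} {A : Finset V}
    (h : ∀ x ∈ A, ∀ y ∈ A, ¬ G.Adj x y) : PerfOn G A := by
  intro T hT
  refine ⟨fun _ => 0, ?_, ?_⟩
  · intro x hx
    have := single_le_omW (G := G) (f := fun _ => 1) hx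
    show 0 < omW G (fun _ => 1) T
    omega
  · intro x hx y hy hxy
    exact absurd hxy (h x (hT hx) y (hT hy))

theorem perfOn_of_clique {G : SimpleGraph V} {A : Finset V}
    (h : ∀ x ∈ A, ∀ y ∈ A, x ≠ y → G.Adj x y) : PerfOn G A := by
  rw [← perfOn_compl_iff]
  apply perfOn_of_stable
  intro x hx y hy hxy
  rw [SimpleGraph.compl_adj] at hxy
  exact hxy.2 (h x hx y hy hxy.1)

/-- a bipartite graph is perfect -/
theorem perfOn_of_bipartite {G : SimpleGraph V} {A : Finset V} (c : V → Bool)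
    (h : ∀ x ∈ A, ∀ y ∈ A, G.Adj x y → c x ≠ c y) : PerfOn G A := by
  intro T hT
  by_cases he : ∃ x ∈ T, ∃ y ∈ T, G.Adj x y
  · obtain ⟨x, hx, y, hy, hxy⟩ := he
    have h2 : 2 ≤ omW G (fun _ => 1) T := pair_le_omW (f := fun _ => 1) hx hy hxy
    refine ⟨fun z => if c z then 1 else 0, ?_, ?_⟩
    · intro z _
      show (if c z then 1 else 0) < omW G (fun _ => 1) T
      split_ifs <;> omega
    · intro z hz t ht hzt
      have := h z (hT hz) t (hT ht) hzt
      cases hcz : c z <;> cases hct : c t <;> simp_all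
  · push Not at he
    exact perfOn_of_stable (fun x hx y hy => he x hx y hy) T (Finset.Subset.refl T)

theorem wperf_of_bipartite {G : SimpleGraph V} {A : Finset V} (c : V → Bool)
    (h : ∀ x ∈ A, ∀ y ∈ A, G.Adj x y → c x ≠ c y) : WPerf G A :=
  (perfOn_of_bipartite c h).wperf

theorem MIG.not_bipartite {G : SimpleGraph V} {I : Finset V} (h : MIG G I) (c : V → Bool) :
    ∃ x ∈ I, ∃ y ∈ I, G.Adj x y ∧ c x = c y := by
  by_contra hcon
  push Not at hcon
  exact h.1 (perfOn_of_bipartite c (fun x hx y hy hxy => hcon x hx y hy hxy))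

theorem MIG.exists_adj {G : SimpleGraph V} {I : Finset V} (h : MIG G I) :
    ∃ x ∈ I, ∃ y ∈ I, G.Adj x y := by
  obtain ⟨x, hx, y, hy, hxy, _⟩ := h.not_bipartite (fun _ => true)
  exact ⟨x, hx, y, hy, hxy⟩

theorem MIG.two_le_omega {G : SimpleGraph V} {I : Finset V} (h : MIG G I) :
    2 ≤ omW G (fun _ => 1) I := by
  obtain ⟨x, hx, y, hy, hxy⟩ := h.exists_adj
  exact pair_le_omW (f := fun _ => 1) hx hy hxy

theorem MIG.five_le_card {G : SimpleGraph V} {I : Finset V} (h : MIG G I) : 5 ≤ I.card := by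
  classical
  obtain ⟨x, hx⟩ := h.nonempty
  have h1 := h.omega_le_degree hx
  have h2 := h.compl.omega_le_degree hx
  have h3 := h.two_le_omega
  have h4 := h.compl.two_le_omega
  have hd : Disjoint (I.filter (G.Adj x)) (I.filter (Gᶜ.Adj x)) := by
    rw [Finset.disjoint_left]
    intro y hy hy2
    rw [Finset.mem_filter] at hy hy2
    rw [SimpleGraph.compl_adj] at hy2
    exact hy2.2.2 hy.2
  have hsub : I.filter (G.Adj x) ∪ I.filter (Gᶜ.Adj x) ⊆ I.erase x := by
    intro y hy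
    rw [Finset.mem_union, Finset.mem_filter, Finset.mem_filter] at hy
    rw [Finset.mem_erase]
    rcases hy with hy | hy
    · exact ⟨hy.2.ne', hy.1⟩
    · exact ⟨hy.2.ne', hy.1⟩
  have h5 := Finset.card_le_card hsub
  rw [Finset.card_union_of_disjoint hd, Finset.card_erase_of_mem hx] at h5
  have : 0 < I.card := Finset.card_pos.2 ⟨x, hx⟩
  omega

/-- a minimal imperfect graph is prime -/
theorem MIG.prime {G : SimpleGraph V} {I M : Finset V} (h : MIG G I) (hMI : M ⊆ I)
    (h2 : 2 ≤ M.card)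
    (hmod : ∀ w ∈ I, w ∉ M → (∀ x ∈ M, G.Adj w x) ∨ (∀ x ∈ M, ¬ G.Adj w x)) : M = I := by
  by_contra hne
  have hss : M ⊂ I := lt_of_le_of_ne hMI hne
  obtain ⟨m, hm⟩ : M.Nonempty := Finset.card_pos.1 (by omega)
  apply h.1
  have hins : insert m (I \ M) ⊂ I := by
    refine ⟨Finset.insert_subset (hMI hm) Finset.sdiff_subset, ?_⟩
    intro hcon
    obtain ⟨m', hm', hmm⟩ := Finset.exists_mem_ne (by omega : 1 < M.card) m
    have := hcon (hMI hm')
    rw [Finset.mem_insert, Finset.mem_sdiff] at this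
    rcases this with h1 | h1
    · exact hmm h1
    · exact h1.2 hm'
  have hs := WPerf.substitute (h := m) (h.2 _ hins).wperf (h.2 _ hss).wperf (by simp [hm])
    Finset.sdiff_disjoint (by
      intro x hx y hy
      rw [Finset.mem_sdiff] at hx
      rcases hmod x hx.1 hx.2 with h1 | h1
      · exact ⟨fun _ => h1 m hm, fun _ => h1 y hy⟩
      · exact ⟨fun h3 => absurd h3 (h1 y hy), fun h3 => absurd h3 (h1 m hm)⟩)
  rw [Finset.sdiff_union_of_subset hMI] at hs
  exact hs.perfOn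

/-- a minimal imperfect graph is connected -/
theorem MIG.connected {G : SimpleGraph V} {I T : Finset V} (h : MIG G I) (hT : T ⊆ I)
    (hne : T.Nonempty) (hnI : T ≠ I) : ∃ x ∈ T, ∃ y ∈ I, y ∉ T ∧ G.Adj x y := by
  by_contra hcon
  push Not at hcon
  have h5 := h.five_le_card
  have hsum : (I \ T).card + T.card = I.card := Finset.card_sdiff_add_card_eq_card hT
  rcases Nat.lt_or_ge T.card 2 with h2 | h2
  · have h3 : 2 ≤ (I \ T).card := by omega
    have := h.prime (M := I \ T) Finset.sdiff_subset h3 (by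
      intro w hw hw2
      right
      intro x hx hwx
      rw [Finset.mem_sdiff] at hx hw2
      push Not at hw2
      exact hcon w (hw2 hw) x hx.1 hx.2 hwx)
    obtain ⟨t, ht⟩ := hne
    have ht2 : t ∈ I \ T := by rw [this]; exact hT ht
    exact (Finset.mem_sdiff.1 ht2).2 ht
  · exact hnI (h.prime hT h2 (by
      intro w hw hw2
      right
      intro x hx hwx
      exact hcon x hx w hw hw2 hwx.symm))

/-- a minimal imperfect graph is co-connected -/
theorem MIG.coconnected {G : SimpleGraph V} {I T : Finset V} (h : MIG G I) (hT : T ⊆ I)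
    (hne : T.Nonempty) (hnI : T ≠ I) : ∃ x ∈ T, ∃ y ∈ I, y ∉ T ∧ ¬ G.Adj x y := by
  obtain ⟨x, hx, y, hy, hyT, hxy⟩ := h.compl.connected hT hne hnI
  rw [SimpleGraph.compl_adj] at hxy
  exact ⟨x, hx, y, hy, hyT, hxy.2⟩

/-- Lemma S: in a minimal imperfect graph the neighbourhood of a vertex is co-connected -/
theorem MIG.lemS {G : SimpleGraph V} {I J1 J2 : Finset V} (h : MIG G I) {x : V} (hx : x ∈ I)
    (h1I : J1 ⊆ I) (h2I : J2 ⊆ I) (h1 : J1.Nonempty) (h2 : J2.Nonempty)
    (hx1 : ∀ y ∈ J1, G.Adj x y) (hx2 : ∀ y ∈ J2, G.Adj x y)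
    (hcov : ∀ y ∈ I, G.Adj x y → y ∈ J1 ∨ y ∈ J2)
    (hcomp : ∀ y ∈ J1, ∀ z ∈ J2, G.Adj y z) : False := by
  classical
  have hxJ1 : x ∉ J1 := fun hh => (hx1 x hh).ne rfl
  have hxJ2 : x ∉ J2 := fun hh => (hx2 x hh).ne rfl
  -- a one-sided construction
  have main : ∀ J J' : Finset V, J ⊆ I → J.Nonempty → x ∉ J →
      (∀ y ∈ I, G.Adj x y → y ∈ J ∨ y ∈ J') →
      ∃ K : Finset V, K ⊆ I ∧ x ∈ K ∧ (∀ y ∈ K, y ≠ x → y ∈ J') ∧ G.IsClique (K : Set V) ∧
        ∀ S : Finset V, S ⊆ I \ K → Gᶜ.IsClique (S : Set V) →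
          S.card = omW Gᶜ (fun _ => 1) I → ∃ y ∈ S, y ∈ J := by
    intro J J' hJI hJ hxJ hcov'
    have hss : I \ J ⊂ I := Finset.sdiff_ssubset hJI hJ
    obtain ⟨c, hc1, hc2⟩ := (h.2 _ hss).compl (I \ J) (Finset.Subset.refl _)
    have hxIJ : x ∈ I \ J := Finset.mem_sdiff.2 ⟨hx, hxJ⟩
    have hKc : G.IsClique (((I \ J).filter (fun y => c y = c x) : Finset V) : Set V) := by
      intro y hy z hz hyz
      rw [Finset.mem_coe, Finset.mem_filter] at hy hz
      by_contra hcon
      exact hc2 y hy.1 z hz.1 ((SimpleGraph.compl_adj _ _ _).2 ⟨hyz, hcon⟩) (hy.2.trans hz.2.symm)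
    refine ⟨(I \ J).filter (fun y => c y = c x), (Finset.filter_subset _ _).trans
      Finset.sdiff_subset, Finset.mem_filter.2 ⟨hxIJ, rfl⟩, ?_, hKc, ?_⟩
    · intro y hy hyx
      have hadj : G.Adj x y := hKc (by simpa using Finset.mem_filter.2 ⟨hxIJ, rfl⟩)
        (by simpa using Finset.mem_filter.1 hy) (Ne.symm hyx)
      rw [Finset.mem_filter, Finset.mem_sdiff] at hy
      rcases hcov' y hy.1.1 hadj with h3 | h3
      · exact absurd h3 hy.1.2
      · exact h3
    · intro S hS hSc hScard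
      by_contra hcon
      push Not at hcon
      have hSJ : S ⊆ I \ J := by
        intro y hy
        exact Finset.mem_sdiff.2 ⟨(Finset.mem_sdiff.1 (hS hy)).1, hcon y hy⟩
      have hinj : Set.InjOn c (S : Set V) := by
        intro y hy z hz hyz
        by_contra hne
        exact hc2 y (hSJ hy) z (hSJ hz) (hSc hy hz hne) hyz
      have himg : S.image c ⊆ (range (omW Gᶜ (fun _ => 1) (I \ J))).erase (c x) := by
        intro n hn
        obtain ⟨y, hy, rfl⟩ := Finset.mem_image.1 hn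
        rw [Finset.mem_erase, Finset.mem_range]
        refine ⟨?_, hc1 y (hSJ hy)⟩
        intro hcy
        exact (Finset.mem_sdiff.1 (hS hy)).2 (Finset.mem_filter.2 ⟨hSJ hy, hcy⟩)
      have hcard := Finset.card_le_card himg
      rw [Finset.card_image_of_injOn hinj, Finset.card_erase_of_mem
        (Finset.mem_range.2 (hc1 x hxIJ)), Finset.card_range] at hcard
      have hmono : omW Gᶜ (fun _ => 1) (I \ J) ≤ omW Gᶜ (fun _ => 1) I :=
        omW_mono_set _ Finset.sdiff_subset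
      have hpos := hc1 x hxIJ
      omega
  obtain ⟨K1, hK1I, hxK1, hK1, hK1c, hS1⟩ := main J1 J2 h1I h1 hxJ1 hcov
  obtain ⟨K2, hK2I, hxK2, hK2, hK2c, hS2⟩ := main J2 J1 h2I h2 hxJ2
    (fun y hy hxy => (hcov y hy hxy).symm)
  have hKc : G.IsClique ((K1 ∪ K2 : Finset V) : Set V) := by
    intro y hy z hz hyz
    rw [Finset.mem_coe, Finset.mem_union] at hy hz
    rcases hy with hy | hy <;> rcases hz with hz | hz
    · exact hK1c hy hz hyz
    · by_cases hyx : y = x
      · subst hyx; exact hK2c hxK2 hz hyz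
      · by_cases hzx : z = x
        · subst hzx; exact hK1c hy hxK1 hyz
        · exact (hcomp z (hK2 z hz hzx) y (hK1 y hy hyx)).symm
    · by_cases hyx : y = x
      · subst hyx; exact hK1c hxK1 hz hyz
      · by_cases hzx : z = x
        · subst hzx; exact hK2c hy hxK2 hyz
        · exact hcomp y (hK2 y hy hyx) z (hK1 z hz hzx)
    · exact hK2c hy hz hyz
  have hKI : K1 ∪ K2 ⊆ I := Finset.union_subset hK1I hK2I
  have hlt : omW Gᶜ (fun _ => 1) (I \ (K1 ∪ K2)) < omW Gᶜ (fun _ => 1) I := by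
    obtain ⟨S, hSs, hSc, hSe⟩ := exists_omW Gᶜ (fun _ => 1) (I \ (K1 ∪ K2))
    by_contra hcon
    have heq : omW Gᶜ (fun _ => 1) (I \ (K1 ∪ K2)) = omW Gᶜ (fun _ => 1) I :=
      le_antisymm (omW_mono_set _ Finset.sdiff_subset) (not_lt.1 hcon)
    have hcard : S.card = omW Gᶜ (fun _ => 1) I := by
      rw [← heq, ← hSe]; simp
    obtain ⟨y, hy, hyJ⟩ := hS1 S (hSs.trans (Finset.sdiff_subset_sdiff (Finset.Subset.refl I)
      Finset.subset_union_left)) hSc hcard
    obtain ⟨z, hz, hzJ⟩ := hS2 S (hSs.trans (Finset.sdiff_subset_sdiff (Finset.Subset.refl I)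
      Finset.subset_union_right)) hSc hcard
    exact clique_compl_iff.1 hSc y hy z hz (hcomp y hyJ z hzJ)
  have hss : I \ (K1 ∪ K2) ⊂ I :=
    Finset.sdiff_ssubset hKI ⟨x, Finset.mem_union_left _ hxK1⟩
  obtain ⟨c, hc1, hc2⟩ := (h.2 _ hss).compl (I \ (K1 ∪ K2)) (Finset.Subset.refl _)
  apply h.compl.1
  apply perfOn_of_col h.compl.2
    (fun y => if y ∈ K1 ∪ K2 then omW Gᶜ (fun _ => 1) I - 1 else c y)
  · intro y hy
    show (if y ∈ K1 ∪ K2 then omW Gᶜ (fun _ => 1) I - 1 else c y) < omW Gᶜ (fun _ => 1) I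
    by_cases hyK : y ∈ K1 ∪ K2
    · rw [if_pos hyK]; omega
    · rw [if_neg hyK]
      exact (hc1 y (Finset.mem_sdiff.2 ⟨hy, hyK⟩)).trans hlt
  · intro y hy z hz hyz
    show (if y ∈ K1 ∪ K2 then omW Gᶜ (fun _ => 1) I - 1 else c y)
      ≠ (if z ∈ K1 ∪ K2 then omW Gᶜ (fun _ => 1) I - 1 else c z)
    by_cases hyK : y ∈ K1 ∪ K2 <;> by_cases hzK : z ∈ K1 ∪ K2
    · exfalso
      rw [SimpleGraph.compl_adj] at hyz
      exact hyz.2 (hKc (by simpa using hyK) (by simpa using hzK) hyz.1)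
    · have := hc1 z (Finset.mem_sdiff.2 ⟨hz, hzK⟩)
      rw [if_pos hyK, if_neg hzK]; omega
    · have := hc1 y (Finset.mem_sdiff.2 ⟨hy, hyK⟩)
      rw [if_neg hyK, if_pos hzK]; omega
    · rw [if_neg hyK, if_neg hzK]
      exact hc2 y (Finset.mem_sdiff.2 ⟨hy, hyK⟩) z (Finset.mem_sdiff.2 ⟨hz, hzK⟩) hyz

end BullPD
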